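import Mathlib

/-! A curve that stays polynomially away from a real linear subspace of complex 3-space but is
not separated from it by any algebraic hypersurface. -/

namespace Pool.Agent.Results.MP_c229cb_an.NoSeparation

open MvPolynomial Complex

theorem result : ∃ (K : Submodule ℝ (EuclideanSpace ℂ (Fin 3))) (F : Finset (MvPolynomial (Fin 3) ℂ))
    (V : Set (EuclideanSpace ℂ (Fin 3))), IsClosed (K : Set (EuclideanSpace ℂ (Fin 3))) ∧
    V = {z : EuclideanSpace ℂ (Fin 3) | ∀ f ∈ F, eval z f = 0} ∧ V.Nonempty ∧ V ≠ Set.univ ∧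
    (∀ z ∈ V, 1 ≤ Metric.infDist z K * (1 + ‖z‖) ^ 1) ∧
    ∀ P : MvPolynomial (Fin 3) ℂ, (∀ z ∈ V, eval z P = 0) → ∃ z ∈ K, eval z P = 0 := by
  classical
  let K : Submodule ℝ (EuclideanSpace ℂ (Fin 3)) :=
    { carrier := {z | (z 1).im = 0 ∧ (z 2).im = 0}
      add_mem' := fun ha hb => by simp [ha.1, ha.2, hb.1, hb.2]
      zero_mem' := by simp
      smul_mem' := fun c z hz => by simp [hz.1, hz.2] }
  have hV : ∀ z : EuclideanSpace ℂ (Fin 3),
      (∀ f ∈ ({X 2 - C I * X 1, X 0 * X 1 - 1} : Finset (MvPolynomial (Fin 3) ℂ)), eval z f = 0) ↔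
      z 2 = I * z 1 ∧ z 0 * z 1 = 1 := fun z => by simp [sub_eq_zero]
  refine ⟨K, {X 2 - C I * X 1, X 0 * X 1 - 1}, _, ?_, rfl, ⟨!₂[1, 1, I], ?_⟩, fun h => ?_,
    fun z hz => ?_, fun P hP => ?_⟩
  · exact (isClosed_eq (by fun_prop) continuous_const).inter
      (isClosed_eq (by fun_prop) continuous_const)
  · exact (hV _).2 (by simp)
  · have : (0 : EuclideanSpace ℂ (Fin 3)) ∈ Set.univ := trivial
    rw [← h] at this
    simpa using ((hV _).1 this).2
  · obtain ⟨h1, h2⟩ := (hV _).1 hz
    have a : ‖z 1‖ ≤ Metric.infDist z K := by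
      refine (Metric.le_infDist ⟨0, K.zero_mem⟩).2 (fun w hw => ?_)
      rw [EuclideanSpace.dist_eq]
      refine Real.le_sqrt_of_sq_le ?_
      simp only [Fin.sum_univ_three, dist_eq_norm, Complex.sq_norm, normSq_apply, sub_re, sub_im,
        hw.1, hw.2, h1, mul_im, I_re, I_im]
      nlinarith [mul_self_nonneg ((z 0).re - (w 0).re), mul_self_nonneg ((z 0).im - (w 0).im),
        mul_self_nonneg ((z 1).re - (w 1).re), mul_self_nonneg ((I * z 1).re - (w 2).re)]
    have b : ‖z 0‖ ≤ ‖z‖ := PiLp.norm_apply_le z 0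
    have c : ‖z 0‖ * ‖z 1‖ = 1 := by rw [← norm_mul, h2, norm_one]
    nlinarith [norm_nonneg (z 0), norm_nonneg (z 1)]
  · by_contra hc
    push Not at hc
    have ev : ∀ (g : Fin 3 → Polynomial ℂ) (t : ℂ),
        (aeval g P).eval t = eval (fun i => (g i).eval t) P := fun g t => by
      rw [← Polynomial.coe_aeval_eq_eval, ← AlgHom.comp_apply, comp_aeval]
      rfl
    have h1 : ∀ t x y : ℂ, x.im = 0 → y.im = 0 → eval ![t, x, y] P = eval ![0, x, y] P := by
      intro t x y hx hy
      set p := aeval ![Polynomial.X, Polynomial.C x, Polynomial.C y] P with hp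
      have e : ∀ s, p.eval s = eval ![s, x, y] P := fun s => by
        rw [hp, ev]; congr 2; funext i; fin_cases i <;> simp
      have : p.degree = 0 := by
        by_contra hd
        obtain ⟨s, hs⟩ := IsAlgClosed.exists_root p hd
        exact hc !₂[s, x, y] ⟨hx, hy⟩ ((e s).symm.trans hs)
      rw [← e, ← e, Polynomial.eq_C_of_degree_eq_zero this, Polynomial.eval_C, Polynomial.eval_C]
    have e2 : ∀ z : Fin 3 → ℂ, eval z (aeval ![0, X 1, X 2] P) = eval ![0, z 1, z 2] P := by
      intro z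
      rw [← aeval_eq_eval, ← AlgHom.comp_apply, comp_aeval, aeval_eq_eval]
      congr 2; funext i; fin_cases i <;> simp
    have h2 : P = aeval ![0, X 1, X 2] P := by
      refine funext_set (fun _ => Set.range Complex.ofReal)
        (fun _ => Set.infinite_range_of_injective Complex.ofReal_injective) (fun z hz => ?_)
      obtain ⟨x, hx⟩ := hz 1 trivial
      obtain ⟨y, hy⟩ := hz 2 trivial
      rw [e2, ← h1 (z 0) _ _ (by rw [← hx]; rfl) (by rw [← hy]; rfl)]
      congr 2; funext i; fin_cases i <;> rfl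
    set q := aeval ![0, Polynomial.X, Polynomial.C I * Polynomial.X] P with hq
    have e : ∀ s, q.eval s = eval ![0, s, I * s] P := fun s => by
      rw [hq, ev]; congr 2; funext i; fin_cases i <;> simp
    have h3 : q = 0 := by
      refine q.eq_zero_of_infinite_isRoot ((Set.finite_singleton (0 : ℂ)).infinite_compl.mono ?_)
      intro s hs
      have := hP !₂[s⁻¹, s, I * s] ((hV _).2 ⟨rfl, inv_mul_cancel₀ hs⟩)
      rw [h2, e2] at this
      exact (e s).trans this
    have := e 0
    rw [h3, Polynomial.eval_zero] at this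
    refine hc !₂[0, 0, I * 0] ⟨rfl, by simp⟩ this.symm

end Pool.Agent.Results.MP_c229cb_an.NoSeparation
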